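import Mathlib

namespace Pool.Agent.H.MP_8ef15a_nt

/-- loose antipalindromes of a given length (leading zero allowed) -/
def LA : ℕ → ℕ → Prop
  | 0, m => m = 0
  | 1, m => m = 1
  | (l + 2), m => ∃ u, u ≤ 2 ∧ ∃ x, LA l x ∧ m = u * 3 ^ (l + 1) + 3 * x + (2 - u)

def AP (m : ℕ) : Prop :=
  m = 1 ∨ ∃ l u x, 1 ≤ u ∧ u ≤ 2 ∧ LA l x ∧ m = u * 3 ^ (l + 1) + 3 * x + (2 - u)

theorem odd3 (k : ℕ) : 3 ^ k % 2 = 1 := by
  induction k with
  | zero => rfl
  | succ k ih => rw [pow_succ]; omega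

theorem LA_par : ∀ l m, LA l m → m % 2 = l % 2
  | 0, m, h => by simp only [LA] at h; omega
  | 1, m, h => by simp only [LA] at h; omega
  | (l + 2), m, h => by
    obtain ⟨u, hu, x, hx, rfl⟩ := h
    have := LA_par l x hx
    have := odd3 (l + 1)
    generalize 3 ^ (l + 1) = t at *
    interval_cases u <;> omega

def Good (L : List ℕ) : Prop := (∀ d ∈ L, d < 3) ∧ L.reverse = L.map (fun d => 2 - d)

theorem good_step (L : List ℕ) (h : Good L) (u : ℕ) (hu : u ≤ 2) :
    Good ((2 - u) :: (L ++ [u])) := by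
  constructor
  · intro d hd
    simp only [List.mem_cons, List.mem_append, List.not_mem_nil, or_false] at hd
    rcases hd with rfl | hd | rfl
    · omega
    · exact h.1 d hd
    · omega
  · simp only [List.reverse_cons, List.reverse_append, List.reverse_nil, List.nil_append,
      List.map_cons, List.map_append, List.map_nil, h.2, List.cons_append]
    congr 1
    omega

theorem val_step (L : List ℕ) (u : ℕ) :
    Nat.ofDigits 3 ((2 - u) :: (L ++ [u]))
      = u * 3 ^ (L.length + 1) + 3 * Nat.ofDigits 3 L + (2 - u) := by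
  rw [Nat.ofDigits_cons, Nat.ofDigits_append]
  simp only [Nat.ofDigits_singleton]
  ring

theorem LA_list : ∀ l m, LA l m → ∃ L : List ℕ, L.length = l ∧ Good L ∧ m = Nat.ofDigits 3 L
  | 0, m, h => ⟨[], rfl, ⟨by simp, by simp⟩, by simpa [LA] using h⟩
  | 1, m, h => ⟨[1], rfl, ⟨by simp, by simp⟩, by simpa [LA] using h⟩
  | (l + 2), m, h => by
    obtain ⟨u, hu, x, hx, rfl⟩ := h
    obtain ⟨L, hl, hg, rfl⟩ := LA_list l x hx
    refine ⟨(2 - u) :: (L ++ [u]), by simp [hl], good_step L hg u hu, ?_⟩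
    rw [val_step, hl]

theorem AP_good (m : ℕ) (h : AP m) : 0 < m ∧ Good (Nat.digits 3 m) := by
  rcases h with rfl | ⟨l, u, x, h1, h2, hx, rfl⟩
  · refine ⟨one_pos, ?_⟩
    have : Nat.digits 3 1 = [1] := by simp
    rw [this]; exact ⟨by simp, by simp⟩
  · refine ⟨by positivity, ?_⟩
    obtain ⟨L, hl, hg, rfl⟩ := LA_list l x hx
    have g := good_step L hg u h2
    rw [← hl, ← val_step, Nat.digits_ofDigits 3 (by norm_num) _ g.1]
    · exact g
    · intro _
      simp only [← List.cons_append, List.getLast_append_singleton]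
      omega

theorem good_idx (L : List ℕ) (h : Good L) (i j : ℕ) (hij : i + j + 1 = L.length) :
    L.getD i 0 + L.getD j 0 = 2 := by
  have hi : i < L.length := by omega
  have hj : j < L.length := by omega
  have e : L.reverse[i]'(by simpa using hi) = (L.map (fun d => 2 - d))[i]'(by simpa using hi) := by
    simp only [h.2]
  rw [List.getElem_reverse, List.getElem_map] at e
  have e2 : L[L.length - 1 - i]'(by omega) = L[j] := by congr 1; omega
  rw [List.getD_eq_getElem _ _ hi, List.getD_eq_getElem _ _ hj]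
  have := h.1 _ (List.getElem_mem hi)
  omega

/-- bitmask of the sumset of a mask with a scaled copy of the loose antipalindromes -/
def addLA : ℕ → ℕ → ℕ → ℕ
  | 0, X, _ => X
  | 1, X, s => X <<< s
  | (l + 2), X, s =>
    addLA l (X <<< (2 * s) ||| X <<< (s * 3 ^ (l + 1) + s) ||| X <<< (2 * s * 3 ^ (l + 1))) (3 * s)

theorem sl (X s n : ℕ) (h : (X <<< s).testBit n = true) : ∃ x, X.testBit x = true ∧ n = x + s := by
  rw [Nat.testBit_shiftLeft] at h
  simp only [ge_iff_le, Bool.and_eq_true, decide_eq_true_eq] at h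
  exact ⟨n - s, h.2, by omega⟩

theorem addLA_spec : ∀ l X s n, (addLA l X s).testBit n = true →
    ∃ x m, X.testBit x = true ∧ LA l m ∧ n = x + s * m
  | 0, X, s, n, h => ⟨n, 0, h, rfl, rfl⟩
  | 1, X, s, n, h => by
    obtain ⟨x, hx, rfl⟩ := sl X s n h
    exact ⟨x, 1, hx, rfl, by ring⟩
  | (l + 2), X, s, n, h => by
    obtain ⟨y, m, hy, hm, rfl⟩ := addLA_spec l _ _ n h
    simp only [Nat.testBit_or, Bool.or_eq_true] at hy
    rcases hy with (hy | hy) | hy
    · obtain ⟨x, hx, rfl⟩ := sl _ _ _ hy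
      exact ⟨x, _, hx, ⟨0, by norm_num, m, hm, rfl⟩, by norm_num; ring⟩
    · obtain ⟨x, hx, rfl⟩ := sl _ _ _ hy
      exact ⟨x, _, hx, ⟨1, by norm_num, m, hm, rfl⟩, by norm_num; ring⟩
    · obtain ⟨x, hx, rfl⟩ := sl _ _ _ hy
      exact ⟨x, _, hx, ⟨2, by norm_num, m, hm, rfl⟩, by norm_num; ring⟩

def addAP : ℕ → ℕ → ℕ
  | 0, X => X ||| X <<< 1
  | (l + 1), X => addAP l X ||| (addLA l X 3) <<< (3 ^ (l + 1) + 1)
      ||| (addLA l X 3) <<< (2 * 3 ^ (l + 1))

theorem addAP_spec : ∀ l X n, (addAP l X).testBit n = true →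
    ∃ x m, X.testBit x = true ∧ (m = 0 ∨ AP m) ∧ n = x + m
  | 0, X, n, h => by
    simp only [addAP, Nat.testBit_or, Bool.or_eq_true] at h
    rcases h with h | h
    · exact ⟨n, 0, h, Or.inl rfl, rfl⟩
    · obtain ⟨x, hx, rfl⟩ := sl _ _ _ h
      exact ⟨x, 1, hx, Or.inr (Or.inl rfl), rfl⟩
  | (l + 1), X, n, h => by
    simp only [addAP, Nat.testBit_or, Bool.or_eq_true] at h
    rcases h with (h | h) | h
    · exact addAP_spec l X n h
    · obtain ⟨y, hy, rfl⟩ := sl _ _ _ h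
      obtain ⟨x, m, hx, hm, rfl⟩ := addLA_spec _ _ _ _ hy
      exact ⟨x, _, hx, Or.inr (Or.inr ⟨l, 1, m, le_rfl, by norm_num, hm, rfl⟩), by norm_num; ring⟩
    · obtain ⟨y, hy, rfl⟩ := sl _ _ _ h
      obtain ⟨x, m, hx, hm, rfl⟩ := addLA_spec _ _ _ _ hy
      exact ⟨x, _, hx, Or.inr (Or.inr ⟨l, 2, m, by norm_num, le_rfl, hm, rfl⟩), by norm_num; ring⟩

def ones (Y lo c : ℕ) : Bool := (Y >>> lo) % 2 ^ c == 2 ^ c - 1

theorem ones_spec (Y lo c : ℕ) (h : ones Y lo c = true) (n : ℕ) (h1 : lo ≤ n) (h2 : n < lo + c) :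
    Y.testBit n = true := by
  simp only [ones, beq_iff_eq] at h
  have := congrArg (fun z => z.testBit (n - lo)) h
  simp only [Nat.testBit_mod_two_pow, Nat.testBit_two_pow_sub_one, Nat.testBit_shiftRight] at this
  have hlt : n - lo < c := by omega
  simp only [hlt, decide_true, Bool.true_and] at this
  rwa [show lo + (n - lo) = n by omega] at this

theorem tb1 (x : ℕ) (h : (1 : ℕ).testBit x = true) : x = 0 := by
  have := Nat.testBit_one_eq_true_iff_self_eq_zero.1 h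
  exact this

def Rep (b c k n : ℕ) : Prop := ∃ x y z, LA (k + b) x ∧ LA (k + c) y ∧ LA k z ∧ n = x + y + z

def Inv (b c lo hi k : ℕ) : Prop :=
  ∀ n, n % 2 = (k + b + c) % 2 → lo * 3 ^ k ≤ 10 * n → 10 * n ≤ hi * 3 ^ k → Rep b c k n

def dbl (X : ℕ) : ℕ := X ||| X <<< 1

def baseChk (b c lo hi k : ℕ) : Bool :=
  ones (dbl (addLA (k + b) (addLA (k + c) (addLA k 1 1) 1) 1)) (lo * 3 ^ k / 10)
    (hi * 3 ^ k / 10 + 1 - lo * 3 ^ k / 10)

theorem base_spec (b c lo hi k : ℕ) (h : baseChk b c lo hi k = true) : Inv b c lo hi k := by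
  intro n hp h1 h2
  have key : ∀ m, (addLA (k + b) (addLA (k + c) (addLA k 1 1) 1) 1).testBit m = true →
      Rep b c k m := by
    intro m hm
    obtain ⟨w, x, hw, hx, rfl⟩ := addLA_spec _ _ _ _ hm
    obtain ⟨v, y, hv, hy, rfl⟩ := addLA_spec _ _ _ _ hw
    obtain ⟨o, z, ho, hz, rfl⟩ := addLA_spec _ _ _ _ hv
    rw [tb1 o ho]
    exact ⟨x, y, z, hx, hy, hz, by ring⟩
  have := ones_spec _ _ _ h n (by omega) (by omega)
  simp only [dbl, Nat.testBit_or, Bool.or_eq_true] at this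
  rcases this with t | t
  · exact key n t
  · obtain ⟨m, hm, rfl⟩ := sl _ _ _ t
    obtain ⟨x, y, z, hx, hy, hz, rfl⟩ := key m hm
    have := LA_par _ _ hx
    have := LA_par _ _ hy
    have := LA_par _ _ hz
    omega

def smallMask (l M : ℕ) : ℕ :=
  addAP l (addAP l (addAP l 1 % 2 ^ M) % 2 ^ M)

def smallChk (l M : ℕ) : Bool :=
  ones (smallMask l M ||| (2 ^ 24 ||| 2 ^ 37 ||| 2 ^ 49 ||| 2 ^ 117 ||| 2 ^ 421)) 0 M

theorem small_gen (l M : ℕ) (hc : smallChk l M = true) (n : ℕ) (h : n < M) (h24 : n ≠ 24)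
    (h37 : n ≠ 37) (h49 : n ≠ 49) (h117 : n ≠ 117) (h421 : n ≠ 421) :
    ∃ x y z, (x = 0 ∨ AP x) ∧ (y = 0 ∨ AP y) ∧ (z = 0 ∨ AP z) ∧ n = x + y + z := by
  have t := ones_spec _ _ _ hc n (Nat.zero_le _) (by omega)
  rw [Nat.testBit_or, Bool.or_eq_true] at t
  rcases t with t | t
  · unfold smallMask at t
    obtain ⟨a, x, ha, hx, rfl⟩ := addAP_spec _ _ _ t
    rw [Nat.testBit_mod_two_pow, Bool.and_eq_true] at ha
    obtain ⟨a', y, ha', hy, rfl⟩ := addAP_spec _ _ _ ha.2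
    rw [Nat.testBit_mod_two_pow, Bool.and_eq_true] at ha'
    obtain ⟨o, z, ho, hz, rfl⟩ := addAP_spec _ _ _ ha'.2
    rw [tb1 o ho]
    exact ⟨x, y, z, hx, hy, hz, by ring⟩
  · simp only [Nat.testBit_or, Bool.or_eq_true, Nat.testBit_two_pow, decide_eq_true_eq] at t
    omega

theorem small_ok : smallChk 13 1810000 = true := by decide +kernel

theorem b1 : baseChk 2 1 13 117 7 = true := by decide +kernel
theorem b2 : baseChk 2 1 13 117 8 = true := by decide +kernel
theorem b3 : baseChk 3 2 20 350 7 = true := by decide +kernel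
theorem b4 : baseChk 3 2 20 350 8 = true := by decide +kernel
theorem b5 : baseChk 4 1 25 825 7 = true := by decide +kernel
theorem b6 : baseChk 4 1 25 825 8 = true := by decide +kernel
theorem b7 : baseChk 5 2 55 2475 7 = true := by decide +kernel
theorem b8 : baseChk 5 2 55 2475 8 = true := by decide +kernel

end Pool.Agent.H.MP_8ef15a_nt
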