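import Mathlib
import Pool.Agent.H.MP_8ef15a_nt.Base

namespace Pool.Agent.H.MP_8ef15a_nt

theorem pick {b c lo hi k : ℕ} (ih : Inv b c lo hi k) (u v w A B C n : ℕ)
    (hu : u ≤ 2) (hv : v ≤ 2) (hw : w ≤ 2)
    (hA : A = 3 * lo + 30 * (3 ^ b * u + 3 ^ c * v + w))
    (hC : C = 3 * hi + 30 * (3 ^ b * u + 3 ^ c * v + w)) (hB : B + 10 * (u + v + w) = 60)
    (hp : n % 2 = (k + b + c) % 2) (h3 : (n + u + v + w) % 3 = 0)
    (h1 : A * 3 ^ k + B ≤ 10 * n) (h2 : 10 * n ≤ C * 3 ^ k + B) :
    ∃ x y z, LA (k + b) x ∧ LA (k + c) y ∧ LA k z ∧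
      n = (u * 3 ^ (k + b + 1) + 3 * x + (2 - u)) + (v * 3 ^ (k + c + 1) + 3 * y + (2 - v))
        + (w * 3 ^ (k + 1) + 3 * z + (2 - w)) := by
  have e1 : A * 3 ^ k = 3 * (lo * 3 ^ k) + 30 * (u * 3 ^ (k + b) + v * 3 ^ (k + c) + w * 3 ^ k) := by
    rw [hA]; ring
  have e2 : C * 3 ^ k = 3 * (hi * 3 ^ k) + 30 * (u * 3 ^ (k + b) + v * 3 ^ (k + c) + w * 3 ^ k) := by
    rw [hC]; ring
  have p : ∀ a j : ℕ, a * 3 ^ j % 2 = a % 2 := fun a j => by
    rw [Nat.mul_mod, odd3]; simp
  have p1 := p u (k + b)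
  have p2 := p v (k + c)
  have p3 := p w k
  have q : ∀ a j : ℕ, a * 3 ^ (j + 1) = 3 * (a * 3 ^ j) := fun a j => by ring
  rw [q u, q v, q w]
  rw [e1] at h1
  rw [e2] at h2
  clear e1 e2 hA hC p q
  unfold Inv at ih
  generalize u * 3 ^ (k + b) = U at *
  generalize v * 3 ^ (k + c) = V at *
  generalize w * 3 ^ k = W at *
  generalize lo * 3 ^ k = LO at *
  generalize hi * 3 ^ k = HI at *
  obtain ⟨m, hm⟩ : ∃ m, n + u + v + w = 3 * m + 3 * (U + V + W) + 6 :=
    ⟨(n + u + v + w - 6) / 3 - (U + V + W), by clear hp p1 p2 p3; omega⟩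
  have hpar : m % 2 = (k + b + c) % 2 := by
    rw [← hp]; clear h1 h2 hp h3 hB; omega
  obtain ⟨x, y, z, hx, hy, hz, e⟩ := ih m hpar (by clear hp p1 p2 p3 h3 hpar; omega)
    (by clear hp p1 p2 p3 h3 hpar; omega)
  exact ⟨x, y, z, hx, hy, hz, by clear hp p1 p2 p3 h3 hpar h1 h2; omega⟩

theorem pickS {b c lo hi k : ℕ} (ih : Inv b c lo hi k) (u v w A B C n : ℕ)
    (hu : u ≤ 2) (hv : v ≤ 2) (hw : w ≤ 2)
    (hA : A = 3 * lo + 30 * (3 ^ b * u + 3 ^ c * v + w))
    (hC : C = 3 * hi + 30 * (3 ^ b * u + 3 ^ c * v + w)) (hB : B + 10 * (u + v + w) = 60)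
    (hp : n % 2 = (k + b + c) % 2) (h3 : (n + u + v + w) % 3 = 0)
    (h1 : A * 3 ^ k + B ≤ 10 * n) (h2 : 10 * n ≤ C * 3 ^ k + B) : Rep b c (k + 2) n := by
  obtain ⟨x, y, z, hx, hy, hz, e⟩ := pick ih u v w A B C n hu hv hw hA hC hB hp h3 h1 h2
  refine ⟨_, _, _, ?_, ?_, ⟨w, hw, z, hz, rfl⟩, e⟩
  · rw [show k + 2 + b = (k + b) + 2 by ring]; exact ⟨u, hu, x, hx, rfl⟩
  · rw [show k + 2 + c = (k + c) + 2 by ring]; exact ⟨v, hv, y, hy, rfl⟩

def R3 (n : ℕ) : Prop := ∃ x y z, AP x ∧ AP y ∧ AP z ∧ n = x + y + z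

theorem pickT {b c lo hi k : ℕ} (ih : Inv b c lo hi k) (u v w A B C n : ℕ)
    (hu : 1 ≤ u ∧ u ≤ 2) (hv : 1 ≤ v ∧ v ≤ 2) (hw : 1 ≤ w ∧ w ≤ 2)
    (hA : A = 3 * lo + 30 * (3 ^ b * u + 3 ^ c * v + w))
    (hC : C = 3 * hi + 30 * (3 ^ b * u + 3 ^ c * v + w)) (hB : B + 10 * (u + v + w) = 60)
    (hp : n % 2 = (k + b + c) % 2) (h3 : (n + u + v + w) % 3 = 0)
    (h1 : A * 3 ^ k + B ≤ 10 * n) (h2 : 10 * n ≤ C * 3 ^ k + B) : R3 n := by
  obtain ⟨x, y, z, hx, hy, hz, e⟩ := pick ih u v w A B C n hu.2 hv.2 hw.2 hA hC hB hp h3 h1 h2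
  exact ⟨_, _, _, Or.inr ⟨_, u, x, hu.1, hu.2, hx, rfl⟩, Or.inr ⟨_, v, y, hv.1, hv.2, hy, rfl⟩,
    Or.inr ⟨_, w, z, hw.1, hw.2, hz, rfl⟩, e⟩

theorem big (k : ℕ) (hk : 7 ≤ k) : 2187 ≤ 3 ^ k :=
  (by norm_num : 2187 = 3 ^ 7) ▸ Nat.pow_le_pow_right (by norm_num) hk

theorem step0 (k : ℕ) (hk : 7 ≤ k) (ih : Inv 2 1 13 117 k) : Inv 2 1 13 117 (k + 2) := by
  intro n hp h1 h2
  have ht := big k hk
  rw [pow_add] at h1 h2
  have h3 : n % 3 = 0 ∨ n % 3 = 1 ∨ n % 3 = 2 := by omega
  rcases h3 with h3 | h3 | h3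
  · by_cases g0 : 10 * n ≤ 351 * 3 ^ k
    · exact pickS ih 0 0 0 39 60 351 n (by norm_num) (by norm_num) (by norm_num) (by norm_num) (by norm_num) (by norm_num) (by omega) (by omega) (by omega) (by omega)
    by_cases g1 : 10 * n ≤ 561 * 3 ^ k
    · exact pickS ih 0 2 1 249 30 561 n (by norm_num) (by norm_num) (by norm_num) (by norm_num) (by norm_num) (by norm_num) (by omega) (by omega) (by omega) (by omega)
    by_cases g2 : 10 * n ≤ 801 * 3 ^ k
    · exact pickS ih 1 2 0 489 30 801 n (by norm_num) (by norm_num) (by norm_num) (by norm_num) (by norm_num) (by norm_num) (by omega) (by omega) (by omega) (by omega)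
    by_cases g3 : 10 * n ≤ 981 * 3 ^ k
    · exact pickS ih 2 1 0 669 30 981 n (by norm_num) (by norm_num) (by norm_num) (by norm_num) (by norm_num) (by norm_num) (by omega) (by omega) (by omega) (by omega)
    exact pickS ih 2 2 2 819 0 1131 n (by norm_num) (by norm_num) (by norm_num) (by norm_num) (by norm_num) (by norm_num) (by omega) (by omega) (by omega) (by omega)
  · by_cases g0 : 10 * n ≤ 411 * 3 ^ k
    · exact pickS ih 0 0 2 99 40 411 n (by norm_num) (by norm_num) (by norm_num) (by norm_num) (by norm_num) (by norm_num) (by omega) (by omega) (by omega) (by omega)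
    by_cases g1 : 10 * n ≤ 711 * 3 ^ k
    · exact pickS ih 1 1 0 399 40 711 n (by norm_num) (by norm_num) (by norm_num) (by norm_num) (by norm_num) (by norm_num) (by omega) (by omega) (by omega) (by omega)
    by_cases g2 : 10 * n ≤ 891 * 3 ^ k
    · exact pickS ih 2 0 0 579 40 891 n (by norm_num) (by norm_num) (by norm_num) (by norm_num) (by norm_num) (by norm_num) (by omega) (by omega) (by omega) (by omega)
    exact pickS ih 2 2 1 789 10 1101 n (by norm_num) (by norm_num) (by norm_num) (by norm_num) (by norm_num) (by norm_num) (by omega) (by omega) (by omega) (by omega)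
  · by_cases g0 : 10 * n ≤ 381 * 3 ^ k
    · exact pickS ih 0 0 1 69 50 381 n (by norm_num) (by norm_num) (by norm_num) (by norm_num) (by norm_num) (by norm_num) (by omega) (by omega) (by omega) (by omega)
    by_cases g1 : 10 * n ≤ 621 * 3 ^ k
    · exact pickS ih 1 0 0 309 50 621 n (by norm_num) (by norm_num) (by norm_num) (by norm_num) (by norm_num) (by norm_num) (by omega) (by omega) (by omega) (by omega)
    by_cases g2 : 10 * n ≤ 831 * 3 ^ k
    · exact pickS ih 1 2 1 519 20 831 n (by norm_num) (by norm_num) (by norm_num) (by norm_num) (by norm_num) (by norm_num) (by omega) (by omega) (by omega) (by omega)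
    exact pickS ih 2 2 0 759 20 1071 n (by norm_num) (by norm_num) (by norm_num) (by norm_num) (by norm_num) (by norm_num) (by omega) (by omega) (by omega) (by omega)

theorem inv0 : ∀ k, 7 ≤ k → Inv 2 1 13 117 k := by
  intro k
  induction k using Nat.strong_induction_on with
  | _ k ih =>
    intro hk
    rcases (by omega : k = 7 ∨ k = 8 ∨ 9 ≤ k) with rfl | rfl | h
    · exact base_spec _ _ _ _ _ b1
    · exact base_spec _ _ _ _ _ b2
    · obtain ⟨j, rfl⟩ : ∃ j, k = j + 2 := ⟨k - 2, by omega⟩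
      exact step0 j (by omega) (ih j (by omega) (by omega))

theorem step1 (k : ℕ) (hk : 7 ≤ k) (ih : Inv 3 2 20 350 k) : Inv 3 2 20 350 (k + 2) := by
  intro n hp h1 h2
  have ht := big k hk
  rw [pow_add] at h1 h2
  have h3 : n % 3 = 0 ∨ n % 3 = 1 ∨ n % 3 = 2 := by omega
  rcases h3 with h3 | h3 | h3
  · by_cases g0 : 10 * n ≤ 1050 * 3 ^ k
    · exact pickS ih 0 0 0 60 60 1050 n (by norm_num) (by norm_num) (by norm_num) (by norm_num) (by norm_num) (by norm_num) (by omega) (by omega) (by omega) (by omega)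
    by_cases g1 : 10 * n ≤ 1920 * 3 ^ k
    · exact pickS ih 1 0 2 930 30 1920 n (by norm_num) (by norm_num) (by norm_num) (by norm_num) (by norm_num) (by norm_num) (by omega) (by omega) (by omega) (by omega)
    by_cases g2 : 10 * n ≤ 2700 * 3 ^ k
    · exact pickS ih 2 0 1 1710 30 2700 n (by norm_num) (by norm_num) (by norm_num) (by norm_num) (by norm_num) (by norm_num) (by omega) (by omega) (by omega) (by omega)
    exact pickS ih 2 2 2 2280 0 3270 n (by norm_num) (by norm_num) (by norm_num) (by norm_num) (by norm_num) (by norm_num) (by omega) (by omega) (by omega) (by omega)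
  · by_cases g0 : 10 * n ≤ 1110 * 3 ^ k
    · exact pickS ih 0 0 2 120 40 1110 n (by norm_num) (by norm_num) (by norm_num) (by norm_num) (by norm_num) (by norm_num) (by omega) (by omega) (by omega) (by omega)
    by_cases g1 : 10 * n ≤ 1890 * 3 ^ k
    · exact pickS ih 1 0 1 900 40 1890 n (by norm_num) (by norm_num) (by norm_num) (by norm_num) (by norm_num) (by norm_num) (by omega) (by omega) (by omega) (by omega)
    by_cases g2 : 10 * n ≤ 2670 * 3 ^ k
    · exact pickS ih 2 0 0 1680 40 2670 n (by norm_num) (by norm_num) (by norm_num) (by norm_num) (by norm_num) (by norm_num) (by omega) (by omega) (by omega) (by omega)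
    exact pickS ih 2 2 1 2250 10 3240 n (by norm_num) (by norm_num) (by norm_num) (by norm_num) (by norm_num) (by norm_num) (by omega) (by omega) (by omega) (by omega)
  · by_cases g0 : 10 * n ≤ 1080 * 3 ^ k
    · exact pickS ih 0 0 1 90 50 1080 n (by norm_num) (by norm_num) (by norm_num) (by norm_num) (by norm_num) (by norm_num) (by omega) (by omega) (by omega) (by omega)
    by_cases g1 : 10 * n ≤ 1860 * 3 ^ k
    · exact pickS ih 1 0 0 870 50 1860 n (by norm_num) (by norm_num) (by norm_num) (by norm_num) (by norm_num) (by norm_num) (by omega) (by omega) (by omega) (by omega)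
    by_cases g2 : 10 * n ≤ 2730 * 3 ^ k
    · exact pickS ih 2 0 2 1740 20 2730 n (by norm_num) (by norm_num) (by norm_num) (by norm_num) (by norm_num) (by norm_num) (by omega) (by omega) (by omega) (by omega)
    exact pickS ih 2 2 0 2220 20 3210 n (by norm_num) (by norm_num) (by norm_num) (by norm_num) (by norm_num) (by norm_num) (by omega) (by omega) (by omega) (by omega)

theorem inv1 : ∀ k, 7 ≤ k → Inv 3 2 20 350 k := by
  intro k
  induction k using Nat.strong_induction_on with
  | _ k ih =>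
    intro hk
    rcases (by omega : k = 7 ∨ k = 8 ∨ 9 ≤ k) with rfl | rfl | h
    · exact base_spec _ _ _ _ _ b3
    · exact base_spec _ _ _ _ _ b4
    · obtain ⟨j, rfl⟩ : ∃ j, k = j + 2 := ⟨k - 2, by omega⟩
      exact step1 j (by omega) (ih j (by omega) (by omega))

theorem step2 (k : ℕ) (hk : 7 ≤ k) (ih : Inv 4 1 25 825 k) : Inv 4 1 25 825 (k + 2) := by
  intro n hp h1 h2
  have ht := big k hk
  rw [pow_add] at h1 h2
  have h3 : n % 3 = 0 ∨ n % 3 = 1 ∨ n % 3 = 2 := by omega
  rcases h3 with h3 | h3 | h3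
  · by_cases g0 : 10 * n ≤ 2475 * 3 ^ k
    · exact pickS ih 0 0 0 75 60 2475 n (by norm_num) (by norm_num) (by norm_num) (by norm_num) (by norm_num) (by norm_num) (by omega) (by omega) (by omega) (by omega)
    by_cases g1 : 10 * n ≤ 2685 * 3 ^ k
    · exact pickS ih 0 2 1 285 30 2685 n (by norm_num) (by norm_num) (by norm_num) (by norm_num) (by norm_num) (by norm_num) (by omega) (by omega) (by omega) (by omega)
    by_cases g2 : 10 * n ≤ 5025 * 3 ^ k
    · exact pickS ih 1 1 1 2625 30 5025 n (by norm_num) (by norm_num) (by norm_num) (by norm_num) (by norm_num) (by norm_num) (by omega) (by omega) (by omega) (by omega)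
    by_cases g3 : 10 * n ≤ 7365 * 3 ^ k
    · exact pickS ih 2 0 1 4965 30 7365 n (by norm_num) (by norm_num) (by norm_num) (by norm_num) (by norm_num) (by norm_num) (by omega) (by omega) (by omega) (by omega)
    exact pickS ih 2 2 2 5175 0 7575 n (by norm_num) (by norm_num) (by norm_num) (by norm_num) (by norm_num) (by norm_num) (by omega) (by omega) (by omega) (by omega)
  · by_cases g0 : 10 * n ≤ 2595 * 3 ^ k
    · exact pickS ih 0 1 1 195 40 2595 n (by norm_num) (by norm_num) (by norm_num) (by norm_num) (by norm_num) (by norm_num) (by omega) (by omega) (by omega) (by omega)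
    by_cases g1 : 10 * n ≤ 4935 * 3 ^ k
    · exact pickS ih 1 0 1 2535 40 4935 n (by norm_num) (by norm_num) (by norm_num) (by norm_num) (by norm_num) (by norm_num) (by omega) (by omega) (by omega) (by omega)
    by_cases g2 : 10 * n ≤ 5145 * 3 ^ k
    · exact pickS ih 1 2 2 2745 10 5145 n (by norm_num) (by norm_num) (by norm_num) (by norm_num) (by norm_num) (by norm_num) (by omega) (by omega) (by omega) (by omega)
    exact pickS ih 2 1 2 5085 10 7485 n (by norm_num) (by norm_num) (by norm_num) (by norm_num) (by norm_num) (by norm_num) (by omega) (by omega) (by omega) (by omega)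
  · by_cases g0 : 10 * n ≤ 2565 * 3 ^ k
    · exact pickS ih 0 1 0 165 50 2565 n (by norm_num) (by norm_num) (by norm_num) (by norm_num) (by norm_num) (by norm_num) (by omega) (by omega) (by omega) (by omega)
    by_cases g1 : 10 * n ≤ 4905 * 3 ^ k
    · exact pickS ih 1 0 0 2505 50 4905 n (by norm_num) (by norm_num) (by norm_num) (by norm_num) (by norm_num) (by norm_num) (by omega) (by omega) (by omega) (by omega)
    by_cases g2 : 10 * n ≤ 5115 * 3 ^ k
    · exact pickS ih 1 2 1 2715 20 5115 n (by norm_num) (by norm_num) (by norm_num) (by norm_num) (by norm_num) (by norm_num) (by omega) (by omega) (by omega) (by omega)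
    exact pickS ih 2 1 1 5055 20 7455 n (by norm_num) (by norm_num) (by norm_num) (by norm_num) (by norm_num) (by norm_num) (by omega) (by omega) (by omega) (by omega)

theorem inv2 : ∀ k, 7 ≤ k → Inv 4 1 25 825 k := by
  intro k
  induction k using Nat.strong_induction_on with
  | _ k ih =>
    intro hk
    rcases (by omega : k = 7 ∨ k = 8 ∨ 9 ≤ k) with rfl | rfl | h
    · exact base_spec _ _ _ _ _ b5
    · exact base_spec _ _ _ _ _ b6
    · obtain ⟨j, rfl⟩ : ∃ j, k = j + 2 := ⟨k - 2, by omega⟩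
      exact step2 j (by omega) (ih j (by omega) (by omega))

theorem step3 (k : ℕ) (hk : 7 ≤ k) (ih : Inv 5 2 55 2475 k) : Inv 5 2 55 2475 (k + 2) := by
  intro n hp h1 h2
  have ht := big k hk
  rw [pow_add] at h1 h2
  have h3 : n % 3 = 0 ∨ n % 3 = 1 ∨ n % 3 = 2 := by omega
  rcases h3 with h3 | h3 | h3
  · by_cases g0 : 10 * n ≤ 7425 * 3 ^ k
    · exact pickS ih 0 0 0 165 60 7425 n (by norm_num) (by norm_num) (by norm_num) (by norm_num) (by norm_num) (by norm_num) (by omega) (by omega) (by omega) (by omega)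
    by_cases g1 : 10 * n ≤ 7995 * 3 ^ k
    · exact pickS ih 0 2 1 735 30 7995 n (by norm_num) (by norm_num) (by norm_num) (by norm_num) (by norm_num) (by norm_num) (by omega) (by omega) (by omega) (by omega)
    by_cases g2 : 10 * n ≤ 15015 * 3 ^ k
    · exact pickS ih 1 1 1 7755 30 15015 n (by norm_num) (by norm_num) (by norm_num) (by norm_num) (by norm_num) (by norm_num) (by omega) (by omega) (by omega) (by omega)
    by_cases g3 : 10 * n ≤ 22035 * 3 ^ k
    · exact pickS ih 2 0 1 14775 30 22035 n (by norm_num) (by norm_num) (by norm_num) (by norm_num) (by norm_num) (by norm_num) (by omega) (by omega) (by omega) (by omega)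
    exact pickS ih 2 2 2 15345 0 22605 n (by norm_num) (by norm_num) (by norm_num) (by norm_num) (by norm_num) (by norm_num) (by omega) (by omega) (by omega) (by omega)
  · by_cases g0 : 10 * n ≤ 7725 * 3 ^ k
    · exact pickS ih 0 1 1 465 40 7725 n (by norm_num) (by norm_num) (by norm_num) (by norm_num) (by norm_num) (by norm_num) (by omega) (by omega) (by omega) (by omega)
    by_cases g1 : 10 * n ≤ 14745 * 3 ^ k
    · exact pickS ih 1 0 1 7485 40 14745 n (by norm_num) (by norm_num) (by norm_num) (by norm_num) (by norm_num) (by norm_num) (by omega) (by omega) (by omega) (by omega)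
    by_cases g2 : 10 * n ≤ 15315 * 3 ^ k
    · exact pickS ih 1 2 2 8055 10 15315 n (by norm_num) (by norm_num) (by norm_num) (by norm_num) (by norm_num) (by norm_num) (by omega) (by omega) (by omega) (by omega)
    exact pickS ih 2 1 2 15075 10 22335 n (by norm_num) (by norm_num) (by norm_num) (by norm_num) (by norm_num) (by norm_num) (by omega) (by omega) (by omega) (by omega)
  · by_cases g0 : 10 * n ≤ 7695 * 3 ^ k
    · exact pickS ih 0 1 0 435 50 7695 n (by norm_num) (by norm_num) (by norm_num) (by norm_num) (by norm_num) (by norm_num) (by omega) (by omega) (by omega) (by omega)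
    by_cases g1 : 10 * n ≤ 14715 * 3 ^ k
    · exact pickS ih 1 0 0 7455 50 14715 n (by norm_num) (by norm_num) (by norm_num) (by norm_num) (by norm_num) (by norm_num) (by omega) (by omega) (by omega) (by omega)
    by_cases g2 : 10 * n ≤ 15285 * 3 ^ k
    · exact pickS ih 1 2 1 8025 20 15285 n (by norm_num) (by norm_num) (by norm_num) (by norm_num) (by norm_num) (by norm_num) (by omega) (by omega) (by omega) (by omega)
    exact pickS ih 2 1 1 15045 20 22305 n (by norm_num) (by norm_num) (by norm_num) (by norm_num) (by norm_num) (by norm_num) (by omega) (by omega) (by omega) (by omega)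

theorem inv3 : ∀ k, 7 ≤ k → Inv 5 2 55 2475 k := by
  intro k
  induction k using Nat.strong_induction_on with
  | _ k ih =>
    intro hk
    rcases (by omega : k = 7 ∨ k = 8 ∨ 9 ≤ k) with rfl | rfl | h
    · exact base_spec _ _ _ _ _ b7
    · exact base_spec _ _ _ _ _ b8
    · obtain ⟨j, rfl⟩ : ∃ j, k = j + 2 := ⟨k - 2, by omega⟩
      exact step3 j (by omega) (ih j (by omega) (by omega))

theorem top (k : ℕ) (hk : 7 ≤ k) (n : ℕ) (hp : n % 2 = (k + 1) % 2) (h1 : 275 * 3 ^ k ≤ n)
    (h2 : n ≤ 2475 * 3 ^ k) : R3 n := by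
  have ht := big k hk
  have e9 : 3 ^ (k + 2) = 9 * 3 ^ k := by ring
  have i0 := inv0 (k + 2) (by omega)
  have i1 := inv1 (k + 2) (by omega)
  have i2 := inv2 k hk
  have i3 := inv3 k hk
  have h3 : n % 3 = 0 ∨ n % 3 = 1 ∨ n % 3 = 2 := by omega
  rcases h3 with h3 | h3 | h3
  · by_cases g0 : 10 * n ≤ 5025 * 3 ^ k
    · exact pickT i2 1 1 1 2625 30 5025 n (by norm_num) (by norm_num) (by norm_num) (by norm_num) (by norm_num) (by norm_num) (by omega) (by omega) (by omega) (by omega)
    by_cases g1 : 10 * n ≤ 6669 * 3 ^ k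
    · exact pickT i0 1 1 1 429 30 741 n (by norm_num) (by norm_num) (by norm_num) (by norm_num) (by norm_num) (by norm_num) (by omega) (by omega) (by omega) (by omega)
    by_cases g2 : 10 * n ≤ 7575 * 3 ^ k
    · exact pickT i2 2 2 2 5175 0 7575 n (by norm_num) (by norm_num) (by norm_num) (by norm_num) (by norm_num) (by norm_num) (by omega) (by omega) (by omega) (by omega)
    by_cases g3 : 10 * n ≤ 10179 * 3 ^ k
    · exact pickT i0 2 2 2 819 0 1131 n (by norm_num) (by norm_num) (by norm_num) (by norm_num) (by norm_num) (by norm_num) (by omega) (by omega) (by omega) (by omega)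
    by_cases g4 : 10 * n ≤ 15015 * 3 ^ k
    · exact pickT i3 1 1 1 7755 30 15015 n (by norm_num) (by norm_num) (by norm_num) (by norm_num) (by norm_num) (by norm_num) (by omega) (by omega) (by omega) (by omega)
    by_cases g5 : 10 * n ≤ 19440 * 3 ^ k
    · exact pickT i1 1 1 1 1170 30 2160 n (by norm_num) (by norm_num) (by norm_num) (by norm_num) (by norm_num) (by norm_num) (by omega) (by omega) (by omega) (by omega)
    by_cases g6 : 10 * n ≤ 22605 * 3 ^ k
    · exact pickT i3 2 2 2 15345 0 22605 n (by norm_num) (by norm_num) (by norm_num) (by norm_num) (by norm_num) (by norm_num) (by omega) (by omega) (by omega) (by omega)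
    exact pickT i1 2 2 2 2280 0 3270 n (by norm_num) (by norm_num) (by norm_num) (by norm_num) (by norm_num) (by norm_num) (by omega) (by omega) (by omega) (by omega)
  · by_cases g0 : 10 * n ≤ 5145 * 3 ^ k
    · exact pickT i2 1 2 2 2745 10 5145 n (by norm_num) (by norm_num) (by norm_num) (by norm_num) (by norm_num) (by norm_num) (by omega) (by omega) (by omega) (by omega)
    by_cases g1 : 10 * n ≤ 7749 * 3 ^ k
    · exact pickT i0 1 2 2 549 10 861 n (by norm_num) (by norm_num) (by norm_num) (by norm_num) (by norm_num) (by norm_num) (by omega) (by omega) (by omega) (by omega)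
    by_cases g2 : 10 * n ≤ 9909 * 3 ^ k
    · exact pickT i0 2 2 1 789 10 1101 n (by norm_num) (by norm_num) (by norm_num) (by norm_num) (by norm_num) (by norm_num) (by omega) (by omega) (by omega) (by omega)
    by_cases g3 : 10 * n ≤ 15315 * 3 ^ k
    · exact pickT i3 1 2 2 8055 10 15315 n (by norm_num) (by norm_num) (by norm_num) (by norm_num) (by norm_num) (by norm_num) (by omega) (by omega) (by omega) (by omega)
    by_cases g4 : 10 * n ≤ 22335 * 3 ^ k
    · exact pickT i3 2 1 2 15075 10 22335 n (by norm_num) (by norm_num) (by norm_num) (by norm_num) (by norm_num) (by norm_num) (by omega) (by omega) (by omega) (by omega)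
    exact pickT i1 2 2 1 2250 10 3240 n (by norm_num) (by norm_num) (by norm_num) (by norm_num) (by norm_num) (by norm_num) (by omega) (by omega) (by omega) (by omega)
  · by_cases g0 : 10 * n ≤ 5115 * 3 ^ k
    · exact pickT i2 1 2 1 2715 20 5115 n (by norm_num) (by norm_num) (by norm_num) (by norm_num) (by norm_num) (by norm_num) (by omega) (by omega) (by omega) (by omega)
    by_cases g1 : 10 * n ≤ 7479 * 3 ^ k
    · exact pickT i0 1 2 1 519 20 831 n (by norm_num) (by norm_num) (by norm_num) (by norm_num) (by norm_num) (by norm_num) (by omega) (by omega) (by omega) (by omega)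
    by_cases g2 : 10 * n ≤ 9099 * 3 ^ k
    · exact pickT i0 2 1 1 699 20 1011 n (by norm_num) (by norm_num) (by norm_num) (by norm_num) (by norm_num) (by norm_num) (by omega) (by omega) (by omega) (by omega)
    by_cases g3 : 10 * n ≤ 15285 * 3 ^ k
    · exact pickT i3 1 2 1 8025 20 15285 n (by norm_num) (by norm_num) (by norm_num) (by norm_num) (by norm_num) (by norm_num) (by omega) (by omega) (by omega) (by omega)
    by_cases g4 : 10 * n ≤ 22305 * 3 ^ k
    · exact pickT i3 2 1 1 15045 20 22305 n (by norm_num) (by norm_num) (by norm_num) (by norm_num) (by norm_num) (by norm_num) (by omega) (by omega) (by omega) (by omega)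
    exact pickT i1 2 1 1 1980 20 2970 n (by norm_num) (by norm_num) (by norm_num) (by norm_num) (by norm_num) (by norm_num) (by omega) (by omega) (by omega) (by omega)

theorem scale (n j0 : ℕ) (h0 : 275 * 3 ^ j0 ≤ n) :
    ∃ k, j0 ≤ k ∧ k % 2 = j0 % 2 ∧ 275 * 3 ^ k ≤ n ∧ n ≤ 2475 * 3 ^ k := by
  induction n, h0 using Nat.le_induction with
  | base => exact ⟨j0, le_rfl, rfl, le_rfl, by omega⟩
  | succ n _ ih =>
    obtain ⟨k, h1, h2, h3, h4⟩ := ih
    by_cases h : n + 1 ≤ 2475 * 3 ^ k
    · exact ⟨k, h1, h2, by omega, h⟩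
    · have e9 : 3 ^ (k + 2) = 9 * 3 ^ k := by ring
      have : 0 < 3 ^ k := by positivity
      exact ⟨k + 2, by omega, by omega, by omega, by omega⟩

theorem large (n : ℕ) (h : 1810000 ≤ n) : R3 n := by
  rcases Nat.mod_two_eq_zero_or_one n with hp | hp
  · obtain ⟨k, h1, h2, h3, h4⟩ := scale n 7 (by norm_num; omega)
    exact top k h1 n (by omega) h3 h4
  · obtain ⟨k, h1, h2, h3, h4⟩ := scale n 8 (by norm_num; omega)
    exact top k (by omega) n (by omega) h3 h4

theorem main (n : ℕ) (h24 : n ≠ 24) (h37 : n ≠ 37) (h49 : n ≠ 49)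
    (h117 : n ≠ 117) (h421 : n ≠ 421) :
    ∃ x y z, (x = 0 ∨ AP x) ∧ (y = 0 ∨ AP y) ∧ (z = 0 ∨ AP z) ∧ n = x + y + z := by
  by_cases h : n < 1810000
  · exact small_gen _ _ small_ok n h h24 h37 h49 h117 h421
  · obtain ⟨x, y, z, hx, hy, hz, e⟩ := large n (by omega)
    exact ⟨x, y, z, Or.inr hx, Or.inr hy, Or.inr hz, e⟩

end Pool.Agent.H.MP_8ef15a_nt
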